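import Pool.Agent.LinPair.FinalSmall
import Pool.Agent.LinPair.MultiBlock
import Pool.Agent.LinPair.Block
import Pool.Agent.LinPair.Exist
import Pool.Agent.LinPair.Robust

set_option autoImplicit false

namespace Pool.Agent.Results.MP_91fc16_co.TriangleFree

open Pool.Agent.LinPair

open Classical in
/-- For all `c, C > 0` there are arbitrarily small `ε > 0` with a triangle-free graph `G` on `n ≥ 2`
vertices such that all disjoint `A`, `B` with `|A| ≥ c n` and `|B| ≥ ε ^ C n` have edge density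
strictly between `ε` and `1 - ε`. -/
theorem result (c C δ : ℝ) (hc : 0 < c) (hC : 0 < C) (hδ : 0 < δ) :
    ∃ ε : ℝ, 0 < ε ∧ ε < δ ∧ ε < 1 ∧ ∃ n : ℕ, 2 ≤ n ∧ ∃ G : SimpleGraph (Fin n),
      IsEmpty ((⊤ : SimpleGraph (Fin 3)) ↪g G) ∧
      ∀ A B : Finset (Fin n), Disjoint A B → c * n ≤ A.card → ε ^ C * n ≤ B.card →
        ε < (G.edgeDensity A B : ℝ) ∧ (G.edgeDensity A B : ℝ) < 1 - ε := by
  have hMul : MultiStmt := fun {_ _ _} F {_ _ _ _} hK hα hτ hζ L hL hBL =>
    multi_block F hK hα hτ hζ L hL hBL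
  have hBlock : BlockStmt :=
    block_of (fun {_ _ _ _ _ _ _} h {_ _ _ _ _} h1 h2 h3 h4 {_} h5 A S h6 h7 =>
        exists_adj h h1 h2 h3 h4 h5 A S h6 h7)
      (fun {_ _ _ _ _ _} h h1 {_} h2 h3 h4 => robust_adj h h1 h2 h3 h4)
  exact final_small hMul hBlock c C δ hc hC hδ

end Pool.Agent.Results.MP_91fc16_co.TriangleFree
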